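import Pool.Agent.V8H86.GL.Ks
import Pool.Agent.N965.LN.Err
import Pool.Agent.N965.LN.Ps
import Pool.Agent.N965.LN.Psi

set_option autoImplicit false

/-!
# Lang's inequality in finitely generated groups: the error term, for one denominator `b`
-/

open Finset

namespace Pool.Agent.V8H86.GL

open Pool.Agent.N965.LN

variable {m : ℕ}

/-- the kernel sum -/
noncomputable def Sv (ξ : Fin m → ℝ) (H : Fin m → ℕ) (ρ : ℝ) (t : ℕ) : ℝ :=
  ∑ v ∈ Icc 1 ⌊1 / (2 * ρ)⌋₊, FF ξ H (v * t)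

theorem Sv_nonneg (ξ : Fin m → ℝ) (H : Fin m → ℕ) (ρ : ℝ) (t : ℕ) : 0 ≤ Sv ξ H ρ t :=
  Finset.sum_nonneg fun _ _ => FF_nonneg _ _ _

/-- reindexing by the greatest common divisor -/
theorem regroup (X b : ℕ) (hb : 1 ≤ b) (F : ℕ → ℕ → ℝ) (hF : ∀ g t, 0 ≤ F g t) :
    ∑ q ∈ Icc 1 X, F (Nat.gcd b q) (q / Nat.gcd b q) ≤
      ∑ g ∈ b.divisors, ∑ t ∈ Icc 1 (X / g), F g t := by
  classical
  rw [Finset.sum_sigma']
  let e : ℕ → (Σ _ : ℕ, ℕ) := fun q => ⟨Nat.gcd b q, q / Nat.gcd b q⟩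
  have hinj : Set.InjOn e (Icc 1 X : Finset ℕ) := by
    intro q _ q' _ h
    simp only [e, Sigma.mk.injEq, heq_eq_eq] at h
    obtain ⟨hg, hq⟩ := h
    have a1 := Nat.div_mul_cancel (Nat.gcd_dvd_right b q)
    have a2 := Nat.div_mul_cancel (Nat.gcd_dvd_right b q')
    rw [← a1, ← a2, hq, hg]
  have hL : ∑ q ∈ Icc 1 X, F (Nat.gcd b q) (q / Nat.gcd b q) =
      ∑ s ∈ (Icc 1 X).image e, F s.1 s.2 := by
    rw [Finset.sum_image hinj]
  rw [hL]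
  refine Finset.sum_le_sum_of_subset_of_nonneg ?_ fun s _ _ => hF _ _
  intro s hs
  rw [Finset.mem_image] at hs
  obtain ⟨q, hp, rfl⟩ := hs
  rw [Finset.mem_Icc] at hp
  simp only [e, Finset.mem_sigma, Finset.mem_Icc, Nat.mem_divisors]
  have hgpos : 0 < Nat.gcd b q := Nat.gcd_pos_of_pos_left _ hb
  have hgq : Nat.gcd b q ≤ q := Nat.gcd_le_right _ hp.1
  exact ⟨⟨Nat.gcd_dvd_left _ _, by omega⟩, Nat.div_pos hgq hgpos, Nat.div_le_div_right hp.2⟩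

/-- the algebra of the exponents -/
theorem alg {g b X P τ C1 Ψ E : ℝ} (hg : 0 < g) (hb : 0 < b) (hX : 0 < X) (hE : 0 ≤ E) :
    (b * Ψ / g) * (2 * (C1 * (g ^ 2 * X ^ τ * E * b⁻¹) ^ (1 + τ) * P) * (X / g) ^ (1 + 2 * τ)) =
      2 * C1 * Ψ * E ^ (1 + τ) * ((X ^ (τ * (1 + τ)) * X ^ (1 + 2 * τ)) * P) * (b ^ τ)⁻¹ := by
  have hXτ : 0 < X ^ τ := Real.rpow_pos_of_pos hX _
  have hg1 : 0 < g ^ (1 + τ) := Real.rpow_pos_of_pos hg _
  have hg2 : 0 < g ^ (1 + 2 * τ) := Real.rpow_pos_of_pos hg _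
  have hb1 : 0 < b ^ τ := Real.rpow_pos_of_pos hb _
  have e1 : (g ^ 2 * X ^ τ * E * b⁻¹) ^ (1 + τ) =
      g ^ (2 * (1 + τ)) * X ^ (τ * (1 + τ)) * E ^ (1 + τ) * (b ^ (1 + τ))⁻¹ := by
    rw [Real.mul_rpow (by positivity) (by positivity), Real.mul_rpow (by positivity) hE,
      Real.mul_rpow (by positivity) hXτ.le, Real.inv_rpow hb.le, ← Real.rpow_mul hX.le,
      ← Real.rpow_natCast g 2, ← Real.rpow_mul hg.le]
    norm_num
  have e2 : (X / g) ^ (1 + 2 * τ) = X ^ (1 + 2 * τ) / g ^ (1 + 2 * τ) := Real.div_rpow hX.le hg.le _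
  have e3 : b ^ (1 + τ) = b * b ^ τ := by rw [Real.rpow_add hb, Real.rpow_one]
  have e4 : g ^ (2 * (1 + τ)) = g * g ^ (1 + 2 * τ) := by
    nth_rewrite 2 [← Real.rpow_one g]
    rw [← Real.rpow_add hg]
    congr 1
    ring
  rw [e1, e2, e3, e4]
  field_simp

theorem err {ξ : Fin m → ℝ} (hcnt : Cnt ξ) (τ : ℝ) (hτ : 0 < τ) (hτ1 : τ ≤ 1) (ψ : ℕ → ℝ)
    (hψ : ∀ n, 0 < ψ n) (hanti : Antitone ψ) (hsum : Summable ψ) (D : ℝ) (hD : 0 < D)
    (hDψ : ∀ n : ℕ, 1 ≤ n → (n : ℝ) ^ (-(1 + τ)) ≤ D * ψ n) (c : ℝ) (hc : 0 < c) :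
    ∃ C : ℝ, 0 < C ∧ ∀ H : Fin m → ℕ, (∀ i, 1 ≤ H i) → ∀ b X : ℕ, 1 ≤ b → 1 ≤ X →
      ∑ q ∈ Icc 1 X, (b : ℝ) * ψ q *
        Sv ξ H (((b / Nat.gcd b q : ℕ) : ℝ) * (c * ψ q)) (q / Nat.gcd b q) ≤
      C * (X : ℝ) ^ (1 + 4 * τ) * ((∏ i, H i : ℕ) : ℝ) ^ τ := by
  obtain ⟨C1, hC1, hft⟩ := ftl hcnt τ hτ
  obtain ⟨Cd, hCd, hdiv⟩ := Pool.Agent.H510R2.divisor_bound τ hτ
  have hnψ := (t_PSI ψ (fun n => (hψ n).le) hanti hsum).1
  set Ψ := ∑' n, ψ n with hΨ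
  have hΨ0 : 0 ≤ Ψ := tsum_nonneg fun n => (hψ n).le
  set K := 2 * C1 * Ψ * (D / (2 * c)) ^ (1 + τ) with hK
  have hK0 : 0 ≤ K := by positivity
  refine ⟨K * Cd + 1, by positivity, ?_⟩
  intro H hH b X hb hX
  have hb0 : (0 : ℝ) < b := by exact_mod_cast (show 0 < b by omega)
  have hX0 : (0 : ℝ) < X := by exact_mod_cast (show 0 < X by omega)
  have hX1 : (1 : ℝ) ≤ X := by exact_mod_cast hX
  obtain ⟨P, hP⟩ : ∃ P : ℝ, P = ((∏ i, H i : ℕ) : ℝ) ^ τ := ⟨_, rfl⟩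
  have hP0 : 0 ≤ P := by
    rw [hP]
    positivity
  rw [← hP]
  set F : ℕ → ℕ → ℝ := fun g t => (b : ℝ) * ψ (g * t) *
    Sv ξ H (((b / g : ℕ) : ℝ) * (c * ψ (g * t))) t with hF
  have hF0 : ∀ g t, 0 ≤ F g t := by
    intro g t
    have h1 := hψ (g * t)
    have h2 := Sv_nonneg ξ H (((b / g : ℕ) : ℝ) * (c * ψ (g * t))) t
    simp only [hF]
    positivity
  have hstart : ∑ q ∈ Icc 1 X, (b : ℝ) * ψ q *
      Sv ξ H (((b / Nat.gcd b q : ℕ) : ℝ) * (c * ψ q)) (q / Nat.gcd b q) =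
      ∑ q ∈ Icc 1 X, F (Nat.gcd b q) (q / Nat.gcd b q) := by
    refine Finset.sum_congr rfl fun q _ => ?_
    simp only [hF]
    rw [Nat.mul_div_cancel' (Nat.gcd_dvd_right b q)]
  rw [hstart]
  refine (regroup X b hb F hF0).trans ?_
  have key : ∀ g ∈ b.divisors, ∑ t ∈ Icc 1 (X / g), F g t ≤
      K * ((X : ℝ) ^ (1 + 4 * τ) * P) * ((b : ℝ) ^ τ)⁻¹ := by
    intro g hg
    rw [Nat.mem_divisors] at hg
    have hgb := hg.1
    have hgpos : 0 < g := Nat.pos_of_dvd_of_pos hgb (by omega)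
    have hg0 : (0 : ℝ) < g := by exact_mod_cast hgpos
    have hcast : ((b / g : ℕ) : ℝ) = (b : ℝ) / g := Nat.cast_div hgb hg0.ne'
    obtain ⟨f, hf⟩ : ∃ f : ℕ → ℝ, f = fun t => Sv ξ H (((b / g : ℕ) : ℝ) * (c * ψ (g * t))) t :=
      ⟨_, rfl⟩
    have hf0 : ∀ n, 0 ≤ f n := by
      intro n
      rw [hf]
      exact Sv_nonneg _ _ _ _
    obtain ⟨Y, hY⟩ : ∃ Y : ℝ, Y = (g : ℝ) ^ 2 * (X : ℝ) ^ τ * (D / (2 * c)) * (b : ℝ)⁻¹ := ⟨_, rfl⟩
    have hY0 : 0 < Y := by rw [hY]; positivity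
    have hfl : ∀ t, 1 ≤ t → t ≤ X / g →
        ⌊1 / (2 * (((b / g : ℕ) : ℝ) * (c * ψ (g * t))))⌋₊ ≤ ⌊(t : ℝ) * Y⌋₊ := by
      intro t ht1 ht2
      apply Nat.floor_le_floor
      have ht0 : (0 : ℝ) < t := by exact_mod_cast (show 0 < t by omega)
      have hgt : g * t ≤ X := (Nat.mul_le_mul_left g ht2).trans (Nat.mul_div_le X g)
      have hgt1 : 1 ≤ g * t := Nat.mul_pos (by omega) (by omega)
      have h1 := hDψ (g * t) hgt1
      have hp := hψ (g * t)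
      have hx0 : (0 : ℝ) < ((g * t : ℕ) : ℝ) := by exact_mod_cast hgt1
      have hx : 0 < ((g * t : ℕ) : ℝ) ^ (1 + τ) := Real.rpow_pos_of_pos hx0 _
      have h2 : 1 / (2 * (((b / g : ℕ) : ℝ) * (c * ψ (g * t)))) =
          (1 / ψ (g * t)) * (1 / (2 * c)) * (g * (b : ℝ)⁻¹) := by
        rw [hcast]
        field_simp
      have h3 : 1 / ψ (g * t) ≤ D * ((g * t : ℕ) : ℝ) ^ (1 + τ) := by
        rw [div_le_iff₀ hp]
        rw [Real.rpow_neg hx0.le] at h1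
        have h5 : (((g * t : ℕ) : ℝ) ^ (1 + τ))⁻¹ * ((g * t : ℕ) : ℝ) ^ (1 + τ) = 1 :=
          inv_mul_cancel₀ hx.ne'
        have h6 := mul_le_mul_of_nonneg_right h1 hx.le
        rw [h5] at h6
        linarith
      have h4 : ((g * t : ℕ) : ℝ) ^ (1 + τ) ≤ g * t * (X : ℝ) ^ τ := by
        rw [Real.rpow_add hx0, Real.rpow_one]
        have h5 : ((g * t : ℕ) : ℝ) ^ τ ≤ (X : ℝ) ^ τ :=
          Real.rpow_le_rpow hx0.le (by exact_mod_cast hgt) hτ.le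
        have h6 := mul_le_mul_of_nonneg_left h5 hx0.le
        push_cast at h6 ⊢
        exact h6
      rw [h2, hY]
      calc (1 / ψ (g * t)) * (1 / (2 * c)) * (g * (b : ℝ)⁻¹)
          ≤ (D * (g * t * (X : ℝ) ^ τ)) * (1 / (2 * c)) * (g * (b : ℝ)⁻¹) := by
            have h7 : 1 / ψ (g * t) ≤ D * (g * t * (X : ℝ) ^ τ) :=
              h3.trans (mul_le_mul_of_nonneg_left h4 hD.le)
            have h8 : (0 : ℝ) ≤ 1 / (2 * c) := by positivity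
            have h9 : (0 : ℝ) ≤ g * (b : ℝ)⁻¹ := by positivity
            exact mul_le_mul_of_nonneg_right (mul_le_mul_of_nonneg_right h7 h8) h9
        _ = (t : ℝ) * ((g : ℝ) ^ 2 * (X : ℝ) ^ τ * (D / (2 * c)) * (b : ℝ)⁻¹) := by ring
    have hsumf : ∀ s : ℕ, s ≤ X / g →
        ∑ t ∈ Icc 1 s, f t ≤ (C1 * Y ^ (1 + τ) * P) * (s : ℝ) ^ (2 + 2 * τ) := by
      intro s hs
      calc ∑ t ∈ Icc 1 s, f t ≤ ∑ t ∈ Icc 1 s, ∑ v ∈ Icc 1 ⌊(t : ℝ) * Y⌋₊, FF ξ H (v * t) := by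
            refine sum_le_sum fun t ht => ?_
            rw [mem_Icc] at ht
            rw [hf]
            exact sum_le_sum_of_subset_of_nonneg (Icc_subset_Icc le_rfl (hfl t ht.1 (ht.2.trans hs)))
              fun v _ _ => FF_nonneg ξ H _
        _ ≤ C1 * (Y * (s : ℝ) ^ 2) ^ (1 + τ) * P := by
            rw [hP]
            exact hft H hH Y hY0 s
        _ = _ := by
            rw [Real.mul_rpow hY0.le (by positivity), ← Real.rpow_natCast,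
              ← Real.rpow_mul (Nat.cast_nonneg s)]
            rw [show ((2 : ℕ) : ℝ) * (1 + τ) = 2 + 2 * τ by push_cast; ring]
            ring
    have hps := t_PS f (C1 * Y ^ (1 + τ) * P) τ (X / g) hf0 (by positivity) hτ hsumf
    have hXg : ((X / g : ℕ) : ℝ) ≤ X / g := Nat.cast_div_le
    have h5 : ((X / g : ℕ) : ℝ) ^ (1 + 2 * τ) ≤ ((X : ℝ) / g) ^ (1 + 2 * τ) :=
      Real.rpow_le_rpow (Nat.cast_nonneg _) hXg (by linarith)
    have hexp : (X : ℝ) ^ (τ * (1 + τ)) * (X : ℝ) ^ (1 + 2 * τ) ≤ (X : ℝ) ^ (1 + 4 * τ) := by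
      rw [← Real.rpow_add hX0]
      apply Real.rpow_le_rpow_of_exponent_le hX1
      nlinarith
    calc ∑ t ∈ Icc 1 (X / g), F g t
        ≤ ∑ t ∈ Icc 1 (X / g), (b * Ψ / g) * (f t / t) := by
          refine sum_le_sum fun t ht => ?_
          rw [mem_Icc] at ht
          have ht0 : (0 : ℝ) < t := by exact_mod_cast (show 0 < t by omega)
          have h6 := hnψ (g * t)
          push_cast at h6
          have h7 : ψ (g * t) ≤ Ψ / (g * t) := by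
            rw [le_div_iff₀ (by positivity)]
            linarith
          have h8 : (b : ℝ) * ψ (g * t) * f t ≤ (b : ℝ) * (Ψ / (g * t)) * f t :=
            mul_le_mul_of_nonneg_right (mul_le_mul_of_nonneg_left h7 hb0.le) (hf0 t)
          have h9 : (b : ℝ) * (Ψ / (g * t)) * f t = (b * Ψ / g) * (f t / t) := by
            field_simp
          rw [h9] at h8
          rw [hf] at h8 ⊢
          exact h8
      _ = (b * Ψ / g) * ∑ t ∈ Icc 1 (X / g), f t / t := by rw [mul_sum]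
      _ ≤ (b * Ψ / g) * (2 * (C1 * Y ^ (1 + τ) * P) * ((X : ℝ) / g) ^ (1 + 2 * τ)) := by
          refine mul_le_mul_of_nonneg_left (hps.trans ?_) (by positivity)
          exact mul_le_mul_of_nonneg_left h5 (by positivity)
      _ = K * (((X : ℝ) ^ (τ * (1 + τ)) * (X : ℝ) ^ (1 + 2 * τ)) * P) * ((b : ℝ) ^ τ)⁻¹ := by
          rw [hY]
          exact alg hg0 hb0 hX0 (by positivity)
      _ ≤ K * ((X : ℝ) ^ (1 + 4 * τ) * P) * ((b : ℝ) ^ τ)⁻¹ := by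
          refine mul_le_mul_of_nonneg_right (mul_le_mul_of_nonneg_left ?_ hK0) (by positivity)
          exact mul_le_mul_of_nonneg_right hexp hP0
  refine (Finset.sum_le_sum key).trans ?_
  rw [Finset.sum_const, nsmul_eq_mul]
  have hbτ : 0 < (b : ℝ) ^ τ := Real.rpow_pos_of_pos hb0 _
  have h1 : (b.divisors.card : ℝ) * ((b : ℝ) ^ τ)⁻¹ ≤ Cd := by
    rw [← div_eq_mul_inv, div_le_iff₀ hbτ]
    exact hdiv b hb
  have h2 : 0 ≤ K * ((X : ℝ) ^ (1 + 4 * τ) * P) := by positivity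
  have h3 : 0 ≤ (X : ℝ) ^ (1 + 4 * τ) * P := by positivity
  calc (b.divisors.card : ℝ) * (K * ((X : ℝ) ^ (1 + 4 * τ) * P) * ((b : ℝ) ^ τ)⁻¹)
      = K * ((X : ℝ) ^ (1 + 4 * τ) * P) * ((b.divisors.card : ℝ) * ((b : ℝ) ^ τ)⁻¹) := by ring
    _ ≤ K * ((X : ℝ) ^ (1 + 4 * τ) * P) * Cd := mul_le_mul_of_nonneg_left h1 h2
    _ ≤ (K * Cd + 1) * (X : ℝ) ^ (1 + 4 * τ) * P := by
        have : (K * Cd + 1) * (X : ℝ) ^ (1 + 4 * τ) * P =
          K * ((X : ℝ) ^ (1 + 4 * τ) * P) * Cd + (X : ℝ) ^ (1 + 4 * τ) * P := by ring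
        rw [this]
        linarith

end Pool.Agent.V8H86.GL
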