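import Pool.Agent.N965.LN.Fej

set_option autoImplicit false

/-!
# Lang's inequality in finitely generated groups: the Fejér majorant for shifted boxes

The number of the vectors `a` of a box for which `θ + ∑ a_i β_i` is close to an integer, for an
arbitrary shift `θ` and a box with different sides.
-/

open Finset

namespace Pool.Agent.V8H86.GL

open Pool.Agent.N965.LN Pool.Agent.N965.LN.Fej

variable {m : ℕ}

/-- the box of the vectors `a` with `|a i| ≤ H i` -/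
noncomputable def bx (H : Fin m → ℕ) : Finset (Fin m → ℤ) :=
  Fintype.piFinset fun i => Icc (-(H i : ℤ)) (H i)

theorem sum_bx (H : Fin m → ℕ) (β : Fin m → ℝ) (v : ℝ) :
    ∑ a ∈ bx (fun i => 2 * H i), (((∏ i, w (H i) (a i) : ℝ)) : ℂ) *
        e (v * ∑ i, (a i : ℝ) * β i) =
      ((∏ i, (‖D (2 * H i) (v * β i)‖ ^ 2 / H i) : ℝ) : ℂ) := by
  have h1 : ((∏ i, (‖D (2 * H i) (v * β i)‖ ^ 2 / H i) : ℝ) : ℂ) =
      ∏ i, ((‖D (2 * H i) (v * β i)‖ ^ 2 / H i : ℝ) : ℂ) := Complex.ofReal_prod _ _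
  rw [h1]
  simp only [← sum_w]
  rw [Finset.prod_univ_sum]
  unfold bx
  refine Finset.sum_congr rfl fun a _ => ?_
  rw [Finset.prod_mul_distrib, ← e_sum, ← Complex.ofReal_prod]
  congr 2
  rw [Finset.mul_sum]
  refine Finset.sum_congr rfl fun i _ => ?_
  ring

/-- the double sum -/
theorem sum_main (H : Fin m → ℕ) (V : ℕ) (θ : ℝ) (β : Fin m → ℝ) :
    ∑ a ∈ bx (fun i => 2 * H i), (∏ i, w (H i) (a i)) * ‖D V (θ + ∑ i, (a i : ℝ) * β i)‖ ^ 2 ≤
      ∑ v ∈ Icc (-(V : ℤ)) V, ((V : ℝ) - |(v : ℝ)|) *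
        ∏ i, (‖D (2 * H i) ((v : ℝ) * β i)‖ ^ 2 / H i) := by
  have h : ((∑ a ∈ bx (fun i => 2 * H i), (∏ i, w (H i) (a i)) *
      ‖D V (θ + ∑ i, (a i : ℝ) * β i)‖ ^ 2 : ℝ) : ℂ) =
      ∑ v ∈ Icc (-(V : ℤ)) V, e (v * θ) * ((((V : ℝ) - |(v : ℝ)|) *
        ∏ i, (‖D (2 * H i) ((v : ℝ) * β i)‖ ^ 2 / H i) : ℝ) : ℂ) := by
    rw [Complex.ofReal_sum]
    have h1 : ∀ a ∈ bx (fun i => 2 * H i), (((∏ i, w (H i) (a i)) *
        ‖D V (θ + ∑ i, (a i : ℝ) * β i)‖ ^ 2 : ℝ) : ℂ) =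
        ∑ v ∈ Icc (-(V : ℤ)) V, ((((V : ℝ) - |(v : ℝ)| : ℝ)) : ℂ) * (e (v * θ) *
          ((((∏ i, w (H i) (a i) : ℝ)) : ℂ) * e ((v : ℝ) * ∑ i, (a i : ℝ) * β i))) := by
      intro a _
      rw [Complex.ofReal_mul, ← fej V, Finset.mul_sum]
      refine Finset.sum_congr rfl fun v _ => ?_
      rw [mul_add, e_add]
      ring
    rw [Finset.sum_congr rfl h1, Finset.sum_comm]
    refine Finset.sum_congr rfl fun v _ => ?_
    rw [← Finset.mul_sum, ← Finset.mul_sum, sum_bx, Complex.ofReal_mul]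
    ring
  have h2 : ‖((∑ a ∈ bx (fun i => 2 * H i), (∏ i, w (H i) (a i)) *
      ‖D V (θ + ∑ i, (a i : ℝ) * β i)‖ ^ 2 : ℝ) : ℂ)‖ ≤
      ∑ v ∈ Icc (-(V : ℤ)) V, ((V : ℝ) - |(v : ℝ)|) *
        ∏ i, (‖D (2 * H i) ((v : ℝ) * β i)‖ ^ 2 / H i) := by
    rw [h]
    refine (norm_sum_le _ _).trans (Finset.sum_le_sum fun v hv => ?_)
    rw [norm_mul, norm_e, one_mul, Complex.norm_real, Real.norm_eq_abs]
    refine le_of_eq (abs_of_nonneg ?_)
    rw [Finset.mem_Icc] at hv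
    have h3 : |(v : ℝ)| ≤ V := by
      rw [abs_le]
      constructor
      · have : ((-(V : ℤ) : ℤ) : ℝ) ≤ v := by exact_mod_cast hv.1
        push_cast at this
        linarith
      · exact_mod_cast hv.2
    exact mul_nonneg (by linarith) (Finset.prod_nonneg fun i _ => by positivity)
  refine le_trans ?_ h2
  rw [Complex.norm_real, Real.norm_eq_abs]
  exact le_abs_self _

theorem bx_mono {H H' : Fin m → ℕ} (h : ∀ i, H i ≤ H' i) : bx H ⊆ bx H' := by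
  intro a ha
  unfold bx at ha ⊢
  rw [Fintype.mem_piFinset] at ha ⊢
  intro i
  have h1 := Finset.mem_Icc.1 (ha i)
  have h2 := h i
  rw [Finset.mem_Icc]
  constructor <;> omega

/-- the number of the vectors of a box for which `θ + ∑ a_i β_i` is close to an integer -/
theorem fejer {H : Fin m → ℕ} (θ : ℝ) (β : Fin m → ℝ) (ρ : ℝ) (hH : ∀ i, 1 ≤ H i) (hρ : 0 < ρ)
    (hρ2 : ρ ≤ 1 / 2) :
    (((bx H).filter fun a => dn (θ + ∑ i, (a i : ℝ) * β i) ≤ ρ).card : ℝ) ≤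
      10 * ρ * ∏ i, (4 * (H i : ℝ)) +
        20 * ρ * ∑ v ∈ Icc 1 ⌊1 / (2 * ρ)⌋₊, ∏ i, KK (H i) ((v : ℝ) * β i) := by
  have hpi := Real.pi_pos
  obtain ⟨V, hV⟩ : ∃ V : ℕ, V = ⌊1 / (2 * ρ)⌋₊ := ⟨_, rfl⟩
  have hr : (1 : ℝ) ≤ 1 / (2 * ρ) := by
    rw [le_div_iff₀ (by positivity)]
    linarith
  have hV1 : 1 ≤ V := by
    rw [hV]
    exact (Nat.one_le_floor_iff _).2 hr
  have hV1' : (1 : ℝ) ≤ V := by exact_mod_cast hV1
  have hV2 : (V : ℝ) ≤ 1 / (2 * ρ) := by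
    rw [hV]
    exact Nat.floor_le (by positivity)
  have hV3 : 1 / (2 * ρ) < (V : ℝ) + 1 := by
    rw [hV]
    exact Nat.lt_floor_add_one _
  have hρV : ρ ≤ 1 / (2 * V) := by
    rw [le_div_iff₀ (by positivity)] at hV2 ⊢
    linarith
  have hV4 : 1 / (V : ℝ) ≤ 4 * ρ := by
    rw [div_lt_iff₀ (by positivity)] at hV3
    rw [div_le_iff₀ (by positivity)]
    nlinarith
  rw [← hV]
  -- the majorant
  have h1 : (((bx H).filter fun a => dn (θ + ∑ i, (a i : ℝ) * β i) ≤ ρ).card : ℝ) ≤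
      Real.pi ^ 2 / (4 * (V : ℝ) ^ 2) *
        ∑ a ∈ bx (fun i => 2 * H i), (∏ i, w (H i) (a i)) *
          ‖D V (θ + ∑ i, (a i : ℝ) * β i)‖ ^ 2 := by
    rw [Finset.mul_sum]
    calc (((bx H).filter fun a => dn (θ + ∑ i, (a i : ℝ) * β i) ≤ ρ).card : ℝ)
        = ∑ a ∈ (bx H).filter fun a => dn (θ + ∑ i, (a i : ℝ) * β i) ≤ ρ, (1 : ℝ) := by simp
      _ ≤ ∑ a ∈ (bx H).filter fun a => dn (θ + ∑ i, (a i : ℝ) * β i) ≤ ρ,
          Real.pi ^ 2 / (4 * (V : ℝ) ^ 2) *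
            ((∏ i, w (H i) (a i)) * ‖D V (θ + ∑ i, (a i : ℝ) * β i)‖ ^ 2) := by
          refine Finset.sum_le_sum fun a ha => ?_
          rw [Finset.mem_filter] at ha
          have h2 := D_ge hV1 (ha.2.trans hρV)
          have h3 : (2 * (V : ℝ) / Real.pi) ^ 2 ≤ ‖D V (θ + ∑ i, (a i : ℝ) * β i)‖ ^ 2 :=
            pow_le_pow_left₀ (by positivity) h2 2
          have h4 : (1 : ℝ) ≤ ∏ i, w (H i) (a i) := by
            calc (1 : ℝ) = ∏ i : Fin m, (1 : ℝ) := by simp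
              _ ≤ _ := Finset.prod_le_prod (fun _ _ => zero_le_one) fun i _ =>
                w_one_le (hH i) (Fintype.mem_piFinset.1 ha.1 i)
          calc (1 : ℝ) = Real.pi ^ 2 / (4 * (V : ℝ) ^ 2) * (1 * (2 * (V : ℝ) / Real.pi) ^ 2) := by
                field_simp
                norm_num
            _ ≤ _ := by gcongr
      _ ≤ _ := by
          refine Finset.sum_le_sum_of_subset_of_nonneg ?_ ?_
          · exact (Finset.filter_subset _ _).trans (bx_mono fun i => by omega)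
          · intro a ha _
            have h2 : 0 ≤ ∏ i, w (H i) (a i) := Finset.prod_nonneg fun i _ =>
              w_nonneg (Fintype.mem_piFinset.1 ha i)
            positivity
  -- the even sum
  have hKn : ∀ i : Fin m, ∀ x : ℝ, 0 ≤ KK (H i) x := fun i x =>
    le_trans (by positivity) (KK_ge (hH i) x)
  have h2 : ∑ v ∈ Icc (-(V : ℤ)) V, ((V : ℝ) - |(v : ℝ)|) *
        ∏ i, (‖D (2 * H i) ((v : ℝ) * β i)‖ ^ 2 / H i) ≤
      V * ∏ i, (4 * (H i : ℝ)) + 2 * V * ∑ v ∈ Icc 1 V, ∏ i, KK (H i) ((v : ℝ) * β i) := by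
    rw [sumIcc]
    refine add_le_add ?_ ?_
    · have h3 : ∀ i : Fin m, ‖D (2 * H i) (((0 : ℤ) : ℝ) * β i)‖ ^ 2 / (H i : ℝ) = 4 * H i := by
        intro i
        have h0 : (0 : ℝ) < H i := by exact_mod_cast hH i
        rw [Int.cast_zero, zero_mul, D_zero, Complex.norm_natCast]
        push_cast
        field_simp
        ring
      rw [Finset.prod_congr rfl fun i _ => h3 i]
      simp
    · have h3 : ∑ v ∈ Icc 1 V, ∏ i, KK (H i) ((v : ℝ) * β i) =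
          ∑ k ∈ range V, ∏ i, KK (H i) (((k + 1 : ℕ) : ℝ) * β i) := by
        rw [Finset.range_eq_Ico, Finset.sum_Ico_add' (fun v : ℕ => ∏ i, KK (H i) ((v : ℝ) * β i)) 0 V 1]
        rfl
      rw [h3, Finset.mul_sum]
      refine Finset.sum_le_sum fun k hk => ?_
      have hk' : (k : ℝ) + 1 ≤ V := by exact_mod_cast Finset.mem_range.1 hk
      have hk0 : (0 : ℝ) ≤ k := Nat.cast_nonneg _
      have h4 : |(((k : ℤ) + 1 : ℤ) : ℝ)| = (k : ℝ) + 1 := by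
        push_cast
        exact abs_of_nonneg (by positivity)
      have h5 : |((-((k : ℤ) + 1) : ℤ) : ℝ)| = (k : ℝ) + 1 := by
        push_cast
        rw [abs_of_nonpos (by linarith)]
        ring
      have h6 : ∀ i : Fin m, ‖D (2 * H i) (((-((k : ℤ) + 1) : ℤ) : ℝ) * β i)‖ ^ 2 / (H i : ℝ) =
          ‖D (2 * H i) (((k + 1 : ℕ) : ℝ) * β i)‖ ^ 2 / (H i : ℝ) := by
        intro i
        rw [← D_neg]
        congr 4
        push_cast
        ring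
      have h7 : ∀ i : Fin m, ‖D (2 * H i) (((((k : ℤ) + 1) : ℤ) : ℝ) * β i)‖ ^ 2 / (H i : ℝ) =
          ‖D (2 * H i) (((k + 1 : ℕ) : ℝ) * β i)‖ ^ 2 / (H i : ℝ) := by
        intro i
        congr 4
      rw [h4, h5, Finset.prod_congr rfl fun i _ => h6 i, Finset.prod_congr rfl fun i _ => h7 i]
      have h8 : ∏ i, (‖D (2 * H i) (((k + 1 : ℕ) : ℝ) * β i)‖ ^ 2 / (H i : ℝ)) ≤
          ∏ i, KK (H i) (((k + 1 : ℕ) : ℝ) * β i) :=
        Finset.prod_le_prod (fun _ _ => by positivity) fun i _ => KK_ge (hH i) _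
      have h9 : 0 ≤ ∏ i, (‖D (2 * H i) (((k + 1 : ℕ) : ℝ) * β i)‖ ^ 2 / (H i : ℝ)) :=
        Finset.prod_nonneg fun i _ => by positivity
      have h10 : ((V : ℝ) - (k + 1)) *
          ∏ i, (‖D (2 * H i) (((k + 1 : ℕ) : ℝ) * β i)‖ ^ 2 / (H i : ℝ)) ≤
          V * ∏ i, KK (H i) (((k + 1 : ℕ) : ℝ) * β i) := by
        refine mul_le_mul ?_ h8 h9 (by positivity)
        linarith
      linarith
  have h1' := h1.trans (mul_le_mul_of_nonneg_left (sum_main H V θ β) (by positivity))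
  have hS : 0 ≤ ∑ v ∈ Icc 1 V, ∏ i, KK (H i) ((v : ℝ) * β i) :=
    Finset.sum_nonneg fun v _ => Finset.prod_nonneg fun i _ => hKn i _
  have hpi2 : Real.pi ^ 2 ≤ 10 := by
    have := Real.pi_lt_d2
    nlinarith
  have hP : 0 ≤ ∏ i, (4 * (H i : ℝ)) := Finset.prod_nonneg fun i _ => by positivity
  calc _ ≤ Real.pi ^ 2 / (4 * (V : ℝ) ^ 2) * (V * ∏ i, (4 * (H i : ℝ)) +
        2 * V * ∑ v ∈ Icc 1 V, ∏ i, KK (H i) ((v : ℝ) * β i)) :=
        h1'.trans (mul_le_mul_of_nonneg_left h2 (by positivity))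
    _ = (Real.pi ^ 2 / 4 * (1 / V)) * (∏ i, (4 * (H i : ℝ)) +
        2 * ∑ v ∈ Icc 1 V, ∏ i, KK (H i) ((v : ℝ) * β i)) := by
        field_simp
    _ ≤ (10 / 4 * (4 * ρ)) * (∏ i, (4 * (H i : ℝ)) +
        2 * ∑ v ∈ Icc 1 V, ∏ i, KK (H i) ((v : ℝ) * β i)) := by
        gcongr
    _ = _ := by ring

end Pool.Agent.V8H86.GL
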