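import Pool.Agent.N965.LN.Ks
import Pool.Agent.N965.LN.Ftl
import Pool.Agent.V8H86.GL.Fej

set_option autoImplicit false

/-!
# Lang's inequality in finitely generated groups: the sums of the kernels, for boxes with different sides
-/

open Finset

namespace Pool.Agent.V8H86.GL

open Pool.Agent.N965.LN Pool.Agent.N965.LN.KSP

variable {m : ℕ}

theorem le_prod {H : Fin m → ℕ} (hH : ∀ i, 1 ≤ H i) (i : Fin m) : H i ≤ ∏ j, H j := by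
  rw [← Finset.mul_prod_erase Finset.univ H (Finset.mem_univ i)]
  exact Nat.le_mul_of_pos_right _ (Finset.prod_pos fun j _ => Nat.lt_of_succ_le (hH j))

theorem one_le_prod {H : Fin m → ℕ} (hH : ∀ i, 1 ≤ H i) : 1 ≤ ∏ i, H i :=
  Nat.succ_le_of_lt (Finset.prod_pos fun j _ => Nat.lt_of_succ_le (hH j))

/-- the sum of the kernels -/
theorem ksum {ξ : Fin m → ℝ} (hcnt : Cnt ξ) (τ : ℝ) (hτ : 0 < τ) : ∃ C : ℝ, 0 < C ∧
    ∀ H : Fin m → ℕ, (∀ i, 1 ≤ H i) → ∀ N : ℕ,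
      ∑ n ∈ Icc 1 N, ∏ i, KK (H i) ((n : ℝ) * ξ i) ≤ C * N * ((∏ i, H i : ℕ) : ℝ) ^ τ := by
  classical
  obtain ⟨C, hC, hcnt⟩ := hcnt τ hτ
  refine ⟨C * 8 ^ m, by positivity, fun H hH N => ?_⟩
  have hH0 : ∀ i, (0 : ℝ) < H i := fun i => by exact_mod_cast hH i
  obtain ⟨P, hP⟩ : ∃ P, P = ∏ i, H i := ⟨_, rfl⟩
  have hP1 : 1 ≤ P := by
    rw [hP]
    exact one_le_prod hH
  have hP0 : (0 : ℝ) < P := by exact_mod_cast hP1
  have hHP : ∀ i, (H i : ℝ) ≤ P := fun i => by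
    rw [hP]
    exact_mod_cast le_prod hH i
  rw [← hP]
  set J : Fin m → ℕ := fun i => Nat.log 2 (H i) with hJ
  have hH2 : ∀ i, (2 : ℝ) ^ J i ≤ H i := fun i => by
    have : 2 ^ J i ≤ H i := Nat.pow_log_le_self 2 (by have := hH i; omega)
    exact_mod_cast this
  -- expansion of the product
  have h1 : ∀ n : ℕ, ∏ i, KK (H i) ((n : ℝ) * ξ i) ≤
      ∑ p ∈ Fintype.piFinset (fun i : Fin m => range (J i + 1)),
        (∏ i, (4 * (H i : ℝ) / 4 ^ (p i))) *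
          (if ∀ i, dn ((n : ℝ) * ξ i) ≤ 2 ^ (p i) / (H i : ℝ) then 1 else 0) := by
    intro n
    refine (Finset.prod_le_prod (fun i _ => KK_nonneg _ _) fun i _ => KK_le (H i) (hH i) _).trans ?_
    rw [Finset.prod_univ_sum]
    refine Finset.sum_le_sum fun p _ => ?_
    rw [Finset.prod_mul_distrib, Finset.prod_boole]
    simp
  have h2 : ∀ p ∈ Fintype.piFinset (fun i : Fin m => range (J i + 1)),
      ∑ n ∈ Icc 1 N, (∏ i, (4 * (H i : ℝ) / 4 ^ (p i))) *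
        (if ∀ i, dn ((n : ℝ) * ξ i) ≤ 2 ^ (p i) / (H i : ℝ) then 1 else 0) ≤
      C * N * (P : ℝ) ^ τ * ∏ i, ((4 : ℝ) / 2 ^ (p i)) := by
    intro p hp
    rw [Fintype.mem_piFinset] at hp
    rw [← Finset.mul_sum, Finset.sum_boole]
    have h3 := hcnt P hP1 N (fun i => 2 ^ (p i) / (H i : ℝ)) (fun i => by
      have h4 : 1 / (P : ℝ) ≤ 1 / (H i : ℝ) := one_div_le_one_div_of_le (hH0 i) (hHP i)
      refine h4.trans ?_
      apply div_le_div_of_nonneg_right _ (hH0 i).le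
      exact one_le_pow₀ (by norm_num)) (fun i => by
      rw [div_le_one (hH0 i)]
      refine le_trans ?_ (hH2 i)
      exact pow_le_pow_right₀ (by norm_num) (Nat.lt_succ_iff.1 (Finset.mem_range.1 (hp i))))
    have h4 : (0 : ℝ) ≤ ∏ i, (4 * (H i : ℝ) / 4 ^ (p i)) :=
      Finset.prod_nonneg fun i _ => by positivity
    refine (mul_le_mul_of_nonneg_left h3 h4).trans (le_of_eq ?_)
    have h5 : (∏ i, (4 * (H i : ℝ) / 4 ^ (p i))) * ∏ i, (2 ^ (p i) / (H i : ℝ)) =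
        ∏ i, ((4 : ℝ) / 2 ^ (p i)) := by
      rw [← Finset.prod_mul_distrib]
      refine Finset.prod_congr rfl fun i _ => ?_
      have h6 : (4 : ℝ) ^ (p i) = 2 ^ (p i) * 2 ^ (p i) := by
        rw [← mul_pow]; norm_num
      have h7 := (hH0 i).ne'
      rw [h6]
      field_simp
    rw [← h5]
    ring
  calc ∑ n ∈ Icc 1 N, ∏ i, KK (H i) ((n : ℝ) * ξ i)
      ≤ ∑ n ∈ Icc 1 N, ∑ p ∈ Fintype.piFinset (fun i : Fin m => range (J i + 1)),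
        (∏ i, (4 * (H i : ℝ) / 4 ^ (p i))) *
          (if ∀ i, dn ((n : ℝ) * ξ i) ≤ 2 ^ (p i) / (H i : ℝ) then 1 else 0) :=
        Finset.sum_le_sum fun n _ => h1 n
    _ = ∑ p ∈ Fintype.piFinset (fun i : Fin m => range (J i + 1)), ∑ n ∈ Icc 1 N,
        (∏ i, (4 * (H i : ℝ) / 4 ^ (p i))) *
          (if ∀ i, dn ((n : ℝ) * ξ i) ≤ 2 ^ (p i) / (H i : ℝ) then 1 else 0) :=
        Finset.sum_comm
    _ ≤ ∑ p ∈ Fintype.piFinset (fun i : Fin m => range (J i + 1)),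
        C * N * (P : ℝ) ^ τ * ∏ i, ((4 : ℝ) / 2 ^ (p i)) := Finset.sum_le_sum h2
    _ = C * N * (P : ℝ) ^ τ * ∏ i, ∑ j ∈ range (J i + 1), (4 : ℝ) / 2 ^ j := by
        rw [← Finset.mul_sum]
        congr 1
        exact (Finset.prod_univ_sum (fun i : Fin m => range (J i + 1))
          (fun _ j => (4 : ℝ) / 2 ^ j)).symm
    _ ≤ C * N * (P : ℝ) ^ τ * 8 ^ m := by
        apply mul_le_mul_of_nonneg_left _ (by positivity)
        calc ∏ i, ∑ j ∈ range (J i + 1), (4 : ℝ) / 2 ^ j ≤ ∏ _i : Fin m, (8 : ℝ) :=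
              Finset.prod_le_prod (fun i _ => Finset.sum_nonneg fun j _ => by positivity)
                fun i _ => sum_two (J i)
          _ = 8 ^ m := by simp
    _ = C * 8 ^ m * N * (P : ℝ) ^ τ := by ring

/-- the product of the kernels -/
noncomputable def FF (ξ : Fin m → ℝ) (H : Fin m → ℕ) (n : ℕ) : ℝ := ∏ i, KK (H i) ((n : ℝ) * ξ i)

theorem FF_nonneg (ξ : Fin m → ℝ) (H : Fin m → ℕ) (n : ℕ) : 0 ≤ FF ξ H n :=
  Finset.prod_nonneg fun _ _ => KK_nonneg _ _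

/-- the sum over products -/
theorem ftl {ξ : Fin m → ℝ} (hcnt : Cnt ξ) (τ : ℝ) (hτ : 0 < τ) : ∃ C : ℝ, 0 < C ∧
    ∀ H : Fin m → ℕ, (∀ i, 1 ≤ H i) → ∀ Y : ℝ, 0 < Y → ∀ s : ℕ,
      ∑ t ∈ Icc 1 s, ∑ v ∈ Icc 1 ⌊(t : ℝ) * Y⌋₊, FF ξ H (v * t) ≤
        C * (Y * (s : ℝ) ^ 2) ^ (1 + τ) * ((∏ i, H i : ℕ) : ℝ) ^ τ := by
  obtain ⟨C2, hC2, hK2⟩ := ksum hcnt τ hτ
  obtain ⟨C1, hC1, hdiv⟩ := Pool.Agent.H510R2.divisor_bound τ hτ
  refine ⟨C1 * C2, by positivity, ?_⟩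
  intro H hH Y hY s
  obtain ⟨N, hN⟩ : ∃ N : ℕ, N = ⌊Y * (s : ℝ) ^ 2⌋₊ := ⟨_, rfl⟩
  have hN' : (N : ℝ) ≤ Y * (s : ℝ) ^ 2 := by
    rw [hN]; exact Nat.floor_le (by positivity)
  have hF := FF_nonneg ξ H
  have h1 : ∑ t ∈ Icc 1 s, ∑ v ∈ Icc 1 ⌊(t : ℝ) * Y⌋₊, FF ξ H (v * t) ≤
      ∑ n ∈ Icc 1 N, (n.divisors.card : ℝ) * FF ξ H n := by
    refine le_trans (Finset.sum_le_sum fun t ht => ?_) (FtlAux.outer_le (FF ξ H) hF s N)
    rw [Finset.mem_Icc] at ht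
    refine FtlAux.inner_le (FF ξ H) hF t _ N ht.1 ?_
    rw [hN]
    refine Nat.le_floor ?_
    push_cast
    have ht0 : (0 : ℝ) ≤ t := Nat.cast_nonneg t
    have hts : (t : ℝ) ≤ s := by exact_mod_cast ht.2
    have h2 : ((⌊(t : ℝ) * Y⌋₊ : ℕ) : ℝ) ≤ t * Y := Nat.floor_le (by positivity)
    calc ((⌊(t : ℝ) * Y⌋₊ : ℕ) : ℝ) * t ≤ (t * Y) * t := mul_le_mul_of_nonneg_right h2 ht0
      _ = Y * (t : ℝ) ^ 2 := by ring
      _ ≤ Y * (s : ℝ) ^ 2 :=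
        mul_le_mul_of_nonneg_left (pow_le_pow_left₀ ht0 hts 2) hY.le
  refine h1.trans ?_
  have h2 : ∑ n ∈ Icc 1 N, (n.divisors.card : ℝ) * FF ξ H n ≤
      ∑ n ∈ Icc 1 N, (C1 * (N : ℝ) ^ τ) * FF ξ H n := by
    refine Finset.sum_le_sum fun n hn => ?_
    rw [Finset.mem_Icc] at hn
    refine mul_le_mul_of_nonneg_right ?_ (hF n)
    refine (hdiv n hn.1).trans ?_
    refine mul_le_mul_of_nonneg_left ?_ hC1.le
    exact Real.rpow_le_rpow (Nat.cast_nonneg _) (by exact_mod_cast hn.2) hτ.le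
  refine h2.trans ?_
  rw [← Finset.mul_sum]
  have h3 : ∑ n ∈ Icc 1 N, FF ξ H n ≤ C2 * N * ((∏ i, H i : ℕ) : ℝ) ^ τ := hK2 H hH N
  have h4 : C1 * (N : ℝ) ^ τ * ∑ n ∈ Icc 1 N, FF ξ H n ≤
      C1 * (N : ℝ) ^ τ * (C2 * N * ((∏ i, H i : ℕ) : ℝ) ^ τ) :=
    mul_le_mul_of_nonneg_left h3 (by positivity)
  refine h4.trans ?_
  have h5 : C1 * (N : ℝ) ^ τ * (C2 * N * ((∏ i, H i : ℕ) : ℝ) ^ τ) =
      C1 * C2 * (N : ℝ) ^ (1 + τ) * ((∏ i, H i : ℕ) : ℝ) ^ τ := by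
    rw [Real.rpow_add_of_nonneg (Nat.cast_nonneg N) zero_le_one hτ.le, Real.rpow_one]
    ring
  rw [h5]
  have h6 : (N : ℝ) ^ (1 + τ) ≤ (Y * (s : ℝ) ^ 2) ^ (1 + τ) :=
    Real.rpow_le_rpow (Nat.cast_nonneg N) hN' (by positivity)
  refine mul_le_mul_of_nonneg_right ?_ (by positivity)
  exact mul_le_mul_of_nonneg_left h6 (by positivity)

end Pool.Agent.V8H86.GL
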