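import Pool.Agent.V8H86.GL.Err
import Pool.Agent.N965.LN.Res
import Pool.Agent.N965.LN.Log

set_option autoImplicit false

/-!
# Lang's inequality in finitely generated groups: the counting theorem
-/

open Finset

namespace Pool.Agent.V8H86.GL

open Pool.Agent.N965.LN

variable {m : ℕ}

/-- the numerators for which the number is close to a fraction with the denominator `q` -/
noncomputable def Viol (ξ : Fin m → ℝ) (θ : ℝ) (H : Fin m → ℕ) (q b : ℕ) (δ : ℝ) :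
    Finset (ℤ × (Fin m → ℤ)) :=
  ((Icc (-(b : ℤ)) b) ×ˢ bx H).filter fun x =>
    dn ((q : ℝ) * (((x.1 : ℝ) + (θ + ∑ i, (x.2 i : ℝ) * ξ i)) / b)) ≤ δ

theorem card_viol_eq (ξ : Fin m → ℝ) (θ : ℝ) (H : Fin m → ℕ) (q b : ℕ) (δ : ℝ) :
    (Viol ξ θ H q b δ).card = ∑ a ∈ bx H, ((Icc (-(b : ℤ)) b).filter fun a₀ : ℤ =>
      dn ((q : ℝ) * (((a₀ : ℝ) + (θ + ∑ i, (a i : ℝ) * ξ i)) / b)) ≤ δ).card := by
  classical
  unfold Viol
  simp_rw [Finset.card_filter]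
  rw [Finset.sum_product_right]

theorem card_bx_le (H : Fin m → ℕ) (hH : ∀ i, 1 ≤ H i) :
    ((bx H).card : ℝ) ≤ 3 ^ m * ((∏ i, H i : ℕ) : ℝ) := by
  have h1 : (bx H).card = ∏ i, (2 * H i + 1) := by
    unfold bx
    rw [Fintype.card_piFinset]
    refine Finset.prod_congr rfl fun i _ => ?_
    rw [Int.card_Icc]
    omega
  rw [h1]
  have h2 : ∏ i, (2 * H i + 1) ≤ ∏ i, (3 * H i) :=
    Finset.prod_le_prod' fun i _ => by have := hH i; omega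
  have h3 : ∏ i, (3 * H i) = 3 ^ m * ∏ i, H i := by
    rw [Finset.prod_mul_distrib, Finset.prod_const, Finset.card_univ, Fintype.card_fin]
  rw [h3] at h2
  exact_mod_cast h2

theorem card_viol (ξ : Fin m → ℝ) (θ : ℝ) (H : Fin m → ℕ) (hH : ∀ i, 1 ≤ H i) (q b : ℕ) (δ : ℝ)
    (hb : 1 ≤ b) (hq : 1 ≤ q) (hδ : 0 < δ) :
    ((Viol ξ θ H q b δ).card : ℝ) ≤
      (16 * 3 ^ m + 40 * 4 ^ m) * δ * ((b : ℝ) * ((∏ i, H i : ℕ) : ℝ)) +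
        80 * (b * δ * Sv ξ H (((b / Nat.gcd b q : ℕ) : ℝ) * δ) (q / Nat.gcd b q)) := by
  classical
  set g := Nat.gcd b q with hg
  have hg1 : 0 < g := Nat.gcd_pos_of_pos_left q hb
  have hgb : g ∣ b := Nat.gcd_dvd_left b q
  have hb' : 1 ≤ b / g := Nat.div_pos (Nat.le_of_dvd hb hgb) hg1
  have hb'' : (0 : ℝ) < ((b / g : ℕ) : ℝ) := by exact_mod_cast hb'
  have hb0 : (0 : ℝ) < b := by exact_mod_cast hb
  have hS := Sv_nonneg ξ H (((b / g : ℕ) : ℝ) * δ) (q / g)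
  obtain ⟨P, hP⟩ : ∃ P : ℝ, P = ((∏ i, H i : ℕ) : ℝ) := ⟨_, rfl⟩
  have hP0 : 0 ≤ P := by
    rw [hP]
    positivity
  rw [card_viol_eq, ← hP]
  push_cast
  have h1 : ∀ a ∈ bx H, ((((Icc (-(b : ℤ)) b).filter fun a₀ : ℤ =>
      dn ((q : ℝ) * (((a₀ : ℝ) + (θ + ∑ i, (a i : ℝ) * ξ i)) / b)) ≤ δ).card : ℕ) : ℝ) ≤
      16 * b * δ + if dn (((q / g : ℕ) : ℝ) * (θ + ∑ i, (a i : ℝ) * ξ i)) ≤
        ((b / g : ℕ) : ℝ) * δ ∧ ((b / g : ℕ) : ℝ) * δ < 1 / 2 then 4 * b / ((b / g : ℕ) : ℝ) else 0 :=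
    fun a _ => t_RES _ δ b q b hb le_rfl hq hδ
  refine (Finset.sum_le_sum h1).trans ?_
  rw [Finset.sum_add_distrib, Finset.sum_const, nsmul_eq_mul]
  have h2 : ((bx H).card : ℝ) * (16 * b * δ) ≤ 16 * 3 ^ m * δ * (b * P) := by
    have h3 := card_bx_le H hH
    rw [← hP] at h3
    calc ((bx H).card : ℝ) * (16 * b * δ) ≤ (3 ^ m * P) * (16 * b * δ) :=
          mul_le_mul_of_nonneg_right h3 (by positivity)
      _ = _ := by ring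
  by_cases hρ : ((b / g : ℕ) : ℝ) * δ < 1 / 2
  · simp only [hρ, and_true]
    rw [← Finset.sum_filter, Finset.sum_const, nsmul_eq_mul]
    have h3 := fejer (H := H) (((q / g : ℕ) : ℝ) * θ) (fun i => ((q / g : ℕ) : ℝ) * ξ i)
      (((b / g : ℕ) : ℝ) * δ) hH (by positivity) hρ.le
    have h4 : ((bx H).filter fun a =>
        dn (((q / g : ℕ) : ℝ) * (θ + ∑ i, (a i : ℝ) * ξ i)) ≤ ((b / g : ℕ) : ℝ) * δ) =
        ((bx H).filter fun a =>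
        dn (((q / g : ℕ) : ℝ) * θ + ∑ i, (a i : ℝ) * (((q / g : ℕ) : ℝ) * ξ i)) ≤
          ((b / g : ℕ) : ℝ) * δ) := by
      refine Finset.filter_congr fun a _ => ?_
      have : ((q / g : ℕ) : ℝ) * (θ + ∑ i, (a i : ℝ) * ξ i) =
          ((q / g : ℕ) : ℝ) * θ + ∑ i, (a i : ℝ) * (((q / g : ℕ) : ℝ) * ξ i) := by
        rw [mul_add, Finset.mul_sum]
        congr 1
        exact Finset.sum_congr rfl fun i _ => by ring
      rw [this]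
    rw [h4]
    have h5 : ∑ v ∈ Icc 1 ⌊1 / (2 * (((b / g : ℕ) : ℝ) * δ))⌋₊,
        ∏ i, KK (H i) ((v : ℝ) * (((q / g : ℕ) : ℝ) * ξ i)) =
        Sv ξ H (((b / g : ℕ) : ℝ) * δ) (q / g) := by
      unfold Sv FF
      refine Finset.sum_congr rfl fun v _ => Finset.prod_congr rfl fun i _ => ?_
      congr 1
      rw [Nat.cast_mul]
      ring
    rw [h5] at h3
    have h8 : ∏ i, (4 * (H i : ℝ)) = 4 ^ m * P := by
      rw [Finset.prod_mul_distrib, Finset.prod_const, Finset.card_univ, Fintype.card_fin, hP]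
      push_cast
      rfl
    rw [h8] at h3
    have h6 : (0 : ℝ) ≤ 4 * b / ((b / g : ℕ) : ℝ) := by positivity
    have h9 := mul_le_mul_of_nonneg_right h3 h6
    have h7 : ((b / g : ℕ) : ℝ) ≠ 0 := hb''.ne'
    have h10 : (10 * (((b / g : ℕ) : ℝ) * δ) * (4 ^ m * P) + 20 * (((b / g : ℕ) : ℝ) * δ) *
        Sv ξ H (((b / g : ℕ) : ℝ) * δ) (q / g)) * (4 * b / ((b / g : ℕ) : ℝ)) =
        40 * 4 ^ m * δ * (b * P) +
          80 * (b * δ * Sv ξ H (((b / g : ℕ) : ℝ) * δ) (q / g)) := by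
      generalize ((b / g : ℕ) : ℝ) = B at *
      field_simp
      ring
    rw [h10] at h9
    have h11 : (16 * 3 ^ m + 40 * 4 ^ m) * δ * (b * P) =
        16 * 3 ^ m * δ * (b * P) + 40 * 4 ^ m * δ * (b * P) := by ring
    rw [h11]
    linarith
  · simp only [hρ, and_false, if_false, Finset.sum_const_zero]
    have h11 : (16 * 3 ^ m + 40 * 4 ^ m) * δ * (b * P) =
        16 * 3 ^ m * δ * (b * P) + 40 * 4 ^ m * δ * (b * P) := by ring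
    rw [h11]
    have h12 : 0 ≤ 40 * 4 ^ m * δ * (b * P) := by positivity
    have h13 : 0 ≤ 80 * (b * δ * Sv ξ H (((b / g : ℕ) : ℝ) * δ) (q / g)) := by positivity
    linarith

theorem sum_viol (ξ : Fin m → ℝ) (θ : ℝ) (ψ : ℕ → ℝ) (hψ0 : ∀ n, 0 < ψ n) (hs : Summable ψ)
    (c : ℝ) (hc : 0 < c) (H : Fin m → ℕ) (hH : ∀ i, 1 ≤ H i) (b X : ℕ) (hb : 1 ≤ b) (E : ℝ)
    (hE : ∑ q ∈ Icc 1 X, (b : ℝ) * ψ q *
        Sv ξ H (((b / Nat.gcd b q : ℕ) : ℝ) * (c * ψ q)) (q / Nat.gcd b q) ≤ E) :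
    ∑ q ∈ Icc 1 X, ((Viol ξ θ H q b (c * ψ q)).card : ℝ) ≤
      (16 * 3 ^ m + 40 * 4 ^ m) * c * (∑' n, ψ n) * ((b : ℝ) * ((∏ i, H i : ℕ) : ℝ)) +
        80 * c * E := by
  have h1 : ∀ q ∈ Icc 1 X, ((Viol ξ θ H q b (c * ψ q)).card : ℝ) ≤
      ((16 * 3 ^ m + 40 * 4 ^ m) * c * ((b : ℝ) * ((∏ i, H i : ℕ) : ℝ))) * ψ q +
        80 * c * ((b : ℝ) * ψ q *
          Sv ξ H (((b / Nat.gcd b q : ℕ) : ℝ) * (c * ψ q)) (q / Nat.gcd b q)) := by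
    intro q hq
    rw [mem_Icc] at hq
    refine (card_viol ξ θ H hH q b (c * ψ q) hb hq.1 (mul_pos hc (hψ0 q))).trans (le_of_eq ?_)
    ring
  refine (Finset.sum_le_sum h1).trans ?_
  rw [Finset.sum_add_distrib, ← Finset.mul_sum, ← Finset.mul_sum]
  have h2 : ∑ q ∈ Icc 1 X, ψ q ≤ ∑' n, ψ n := hs.sum_le_tsum _ fun n _ => (hψ0 n).le
  have h3 : 0 ≤ (16 * 3 ^ m + 40 * 4 ^ m) * c * ((b : ℝ) * ((∏ i, H i : ℕ) : ℝ)) := by positivity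
  have h4 := mul_le_mul_of_nonneg_left h2 h3
  have h5 := mul_le_mul_of_nonneg_left hE (show (0 : ℝ) ≤ 80 * c by positivity)
  refine (add_le_add h4 h5).trans (le_of_eq ?_)
  ring

/-- the bad numerators -/
def Bad (ξ : Fin m → ℝ) (ψ : ℕ → ℝ) (θ : ℝ) (b : ℕ) (H : Fin m → ℕ) (Y c : ℝ) :
    Set (ℤ × (Fin m → ℤ)) :=
  {x | 0 ≤ x.1 ∧ x.1 < b ∧ (∀ i, 0 < x.2 i ∧ x.2 i ≤ H i) ∧
    ∃ (p : ℤ) (q : ℕ), 1 ≤ q ∧ (q : ℝ) ≤ Y ∧
      |((x.1 : ℝ) + (θ + ∑ i, (x.2 i : ℝ) * ξ i)) / b - (p : ℝ) / q| ≤ c * ψ q / q}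

theorem bad_sub (ξ : Fin m → ℝ) (ψ : ℕ → ℝ) (θ : ℝ) (b : ℕ) (H : Fin m → ℕ) (X : ℕ) (Y c : ℝ)
    (hX : ⌊Y⌋₊ ≤ X) :
    Bad ξ ψ θ b H Y c ⊆ (((Icc 1 X).biUnion fun q => Viol ξ θ H q b (c * ψ q) :
      Finset (ℤ × (Fin m → ℤ))) : Set (ℤ × (Fin m → ℤ))) := by
  rintro ⟨a₀, a⟩ ⟨h1, h2, h3, p, q, h6, h7, h8⟩
  simp only at h1 h2 h3 h8
  rw [Finset.mem_coe, Finset.mem_biUnion]
  refine ⟨q, mem_Icc.2 ⟨h6, (Nat.le_floor h7).trans hX⟩, ?_⟩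
  unfold Viol
  rw [Finset.mem_filter, Finset.mem_product]
  refine ⟨⟨?_, ?_⟩, ?_⟩
  · rw [Finset.mem_Icc]
    constructor
    · simp only
      omega
    · simp only
      omega
  · unfold bx
    rw [Fintype.mem_piFinset]
    intro i
    have := h3 i
    rw [Finset.mem_Icc]
    constructor
    · simp only
      omega
    · exact this.2
  · have hq : (0 : ℝ) < q := by exact_mod_cast h6
    refine (round_le _ p).trans ?_
    simp only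
    have h9 : (q : ℝ) * (((a₀ : ℝ) + (θ + ∑ i, (a i : ℝ) * ξ i)) / b) - p =
        q * (((a₀ : ℝ) + (θ + ∑ i, (a i : ℝ) * ξ i)) / b - (p : ℝ) / q) := by
      field_simp
    rw [h9, abs_mul, abs_of_pos hq]
    have h10 := mul_le_mul_of_nonneg_left h8 hq.le
    refine h10.trans (le_of_eq ?_)
    field_simp

theorem bad_card (ξ : Fin m → ℝ) (ψ : ℕ → ℝ) (θ : ℝ) (b : ℕ) (H : Fin m → ℕ) (X : ℕ) (Y c : ℝ)
    (hX : ⌊Y⌋₊ ≤ X) :
    (Bad ξ ψ θ b H Y c).Finite ∧ ((Bad ξ ψ θ b H Y c).ncard : ℝ) ≤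
      ∑ q ∈ Icc 1 X, ((Viol ξ θ H q b (c * ψ q)).card : ℝ) := by
  classical
  have h1 := bad_sub ξ ψ θ b H X Y c hX
  refine ⟨(Finset.finite_toSet _).subset h1, ?_⟩
  have h2 := Set.ncard_le_ncard h1 (Finset.finite_toSet _)
  rw [Set.ncard_coe_finset] at h2
  have h4 := h2.trans Finset.card_biUnion_le
  exact_mod_cast h4

theorem bad_mono (ξ : Fin m → ℝ) (ψ ψ' : ℕ → ℝ) (θ : ℝ) (b : ℕ) (H : Fin m → ℕ) (Y Y' c : ℝ)
    (hY : Y ≤ Y') (hc0 : 0 ≤ c) (hψ : ∀ n, ψ n ≤ ψ' n) :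
    Bad ξ ψ θ b H Y c ⊆ Bad ξ ψ' θ b H Y' c := by
  rintro ⟨a₀, a⟩ ⟨h1, h2, h3, p, q, h6, h7, h8⟩
  refine ⟨h1, h2, h3, p, q, h6, h7.trans hY, h8.trans ?_⟩
  have hq : (0 : ℝ) < q := by exact_mod_cast h6
  refine div_le_div_of_nonneg_right ?_ hq.le
  exact mul_le_mul_of_nonneg_left (hψ q) hc0

/-- **The counting theorem.** -/
theorem count {ξ : Fin m → ℝ} (hcnt : Cnt ξ) (κ : ℝ) (hκ : κ < 1) (ψ : ℕ → ℝ)
    (hψ0 : ∀ n, 0 ≤ ψ n) (hψ : Antitone ψ) (hs : Summable ψ) (η : ℝ) (hη : 0 < η) :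
    ∃ (c : ℝ) (N₀ : ℕ), 0 < c ∧ ∀ (θ : ℝ) (b : ℕ) (H : Fin m → ℕ), 1 ≤ b → (∀ i, 1 ≤ H i) →
      N₀ ≤ b * ∏ i, H i →
      (Bad ξ ψ θ b H (((b * ∏ i, H i : ℕ) : ℝ) ^ κ) c).Finite ∧
      ((Bad ξ ψ θ b H (((b * ∏ i, H i : ℕ) : ℝ) ^ κ) c).ncard : ℝ) ≤
        η * ((b * ∏ i, H i : ℕ) : ℝ) := by
  set κ' := max κ 0 with hκ'
  have hκ0 : 0 ≤ κ' := le_max_right _ _
  have hκκ : κ ≤ κ' := le_max_left _ _
  have hκ1 : κ' < 1 := max_lt hκ one_pos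
  set τ := min 1 ((1 - κ') / (2 * (1 + 4 * κ'))) with hτ
  have hτ0 : 0 < τ := lt_min one_pos (div_pos (by linarith) (by positivity))
  have hτ1 : τ ≤ 1 := min_le_left _ _
  have hτ2 : τ * (1 + 4 * κ') ≤ (1 - κ') / 2 := by
    have h1 : τ ≤ (1 - κ') / (2 * (1 + 4 * κ')) := min_le_right _ _
    have h2 : 0 < 1 + 4 * κ' := by positivity
    calc τ * (1 + 4 * κ') ≤ (1 - κ') / (2 * (1 + 4 * κ')) * (1 + 4 * κ') :=
          mul_le_mul_of_nonneg_right h1 h2.le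
      _ = (1 - κ') / 2 := by field_simp
  set e := (1 + κ') / 2 with he
  have he1 : τ + κ' * (1 + 4 * τ) ≤ e := by
    have : τ + κ' * (1 + 4 * τ) = κ' + τ * (1 + 4 * κ') := by ring
    rw [this, he]
    linarith
  have he2 : 0 < 1 - e := by
    rw [he]
    linarith
  set φ : ℕ → ℝ := fun n => ((n : ℝ) + 1) ^ (-(1 + τ)) with hφ
  have hφ0 : ∀ n, 0 < φ n := fun n => by
    simp only [hφ]
    positivity
  have hφa : Antitone φ := by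
    intro a b hab
    simp only [hφ]
    apply Real.rpow_le_rpow_of_nonpos (by positivity) _ (by linarith)
    have : (a : ℝ) ≤ b := by exact_mod_cast hab
    linarith
  have hφs : Summable φ := by
    have h1 : Summable (fun n : ℕ => ((n : ℝ)) ^ (-(1 + τ))) :=
      Real.summable_nat_rpow.2 (by linarith)
    have h2 := (summable_nat_add_iff 1).2 h1
    refine h2.congr fun n => ?_
    simp only [hφ]
    push_cast
    rfl
  set ψ' : ℕ → ℝ := fun n => ψ n + φ n with hψ'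
  have hψ'0 : ∀ n, 0 < ψ' n := fun n => by
    have h1 := hφ0 n
    have h2 := hψ0 n
    simp only [hψ']
    linarith
  have hψ'a : Antitone ψ' := fun a b hab => add_le_add (hψ hab) (hφa hab)
  have hψ's : Summable ψ' := hs.add hφs
  set Ψ := ∑' n, ψ' n with hΨ
  have hΨ0 : 0 < Ψ := hψ's.tsum_pos (fun n => (hψ'0 n).le) 0 (hψ'0 0)
  have hD : ∀ n : ℕ, 1 ≤ n → (n : ℝ) ^ (-(1 + τ)) ≤ (2 : ℝ) ^ (1 + τ) * ψ' n := by
    intro n hn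
    have hn' : (1 : ℝ) ≤ n := by exact_mod_cast hn
    have h1 : (2 * (n : ℝ)) ^ (-(1 + τ)) ≤ φ n := by
      simp only [hφ]
      exact Real.rpow_le_rpow_of_nonpos (by positivity) (by linarith) (by linarith)
    have h2 : (2 * (n : ℝ)) ^ (-(1 + τ)) = (2 : ℝ) ^ (-(1 + τ)) * (n : ℝ) ^ (-(1 + τ)) :=
      Real.mul_rpow (by norm_num) (by positivity)
    have h3 : (2 : ℝ) ^ (1 + τ) * (2 : ℝ) ^ (-(1 + τ)) = 1 := by
      rw [← Real.rpow_add (by norm_num)]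
      simp
    have h4 : (0 : ℝ) < (2 : ℝ) ^ (1 + τ) := by positivity
    calc (n : ℝ) ^ (-(1 + τ)) = (2 : ℝ) ^ (1 + τ) * (2 * (n : ℝ)) ^ (-(1 + τ)) := by
          rw [h2, ← mul_assoc, h3, one_mul]
      _ ≤ (2 : ℝ) ^ (1 + τ) * φ n := mul_le_mul_of_nonneg_left h1 h4.le
      _ ≤ (2 : ℝ) ^ (1 + τ) * ψ' n := by
          refine mul_le_mul_of_nonneg_left ?_ h4.le
          have := hψ0 n
          simp only [hψ']
          linarith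
  set B : ℝ := 16 * 3 ^ m + 40 * 4 ^ m with hB
  have hB0 : 0 < B := by positivity
  set c₁ := η / (2 * B * Ψ) with hc₁
  have hc₁0 : 0 < c₁ := by positivity
  have hBc : B * c₁ * Ψ = η / 2 := by
    rw [hc₁]
    field_simp
  obtain ⟨C, hC, hE⟩ := err hcnt τ hτ0 hτ1 ψ' hψ'0 hψ'a hψ's ((2 : ℝ) ^ (1 + τ))
    (by positivity) hD c₁ hc₁0
  obtain ⟨N₀, hN₀⟩ : ∃ N₀ : ℕ, ∀ N : ℕ, N₀ ≤ N → 80 * c₁ * C / (η / 2) ≤ (N : ℝ) ^ (1 - e) := by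
    have h1 := ((tendsto_rpow_atTop he2).comp tendsto_natCast_atTop_atTop).eventually_ge_atTop
      (80 * c₁ * C / (η / 2))
    exact Filter.eventually_atTop.1 h1
  refine ⟨c₁, N₀, hc₁0, fun θ b H hb hH hle => ?_⟩
  obtain ⟨N, hN⟩ : ∃ N, N = b * ∏ i, H i := ⟨_, rfl⟩
  have hP1 : 1 ≤ ∏ i, H i := one_le_prod hH
  have hN1 : 1 ≤ N := by
    rw [hN]
    exact Nat.mul_pos hb hP1
  have hPN : ∏ i, H i ≤ N := by
    rw [hN]
    exact Nat.le_mul_of_pos_left _ hb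
  rw [← hN] at hle ⊢
  have hN' : (1 : ℝ) ≤ N := by exact_mod_cast hN1
  have hNp : (0 : ℝ) < N := by linarith
  set X := ⌊(N : ℝ) ^ κ'⌋₊ with hX
  have hX1 : 1 ≤ X := by
    apply Nat.le_floor
    rw [Nat.cast_one]
    exact Real.one_le_rpow hN' hκ0
  have hXle : (X : ℝ) ≤ (N : ℝ) ^ κ' := Nat.floor_le (by positivity)
  have hsub : Bad ξ ψ θ b H ((N : ℝ) ^ κ) c₁ ⊆ Bad ξ ψ' θ b H ((N : ℝ) ^ κ') c₁ := by
    refine bad_mono ξ ψ ψ' θ b H _ _ _ (Real.rpow_le_rpow_of_exponent_le hN' hκκ) hc₁0.le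
      fun n => ?_
    have := hφ0 n
    simp only [hψ']
    linarith
  obtain ⟨hfin, hcard⟩ := bad_card ξ ψ' θ b H X ((N : ℝ) ^ κ') c₁ le_rfl
  refine ⟨hfin.subset hsub, ?_⟩
  have h1 : ((Bad ξ ψ θ b H ((N : ℝ) ^ κ) c₁).ncard : ℝ) ≤
      ((Bad ξ ψ' θ b H ((N : ℝ) ^ κ') c₁).ncard : ℝ) := by
    exact_mod_cast Set.ncard_le_ncard hsub hfin
  have h2 := sum_viol ξ θ ψ' hψ'0 hψ's c₁ hc₁0 H hH b X hb _ (hE H hH b X hb hX1)
  have hbP : (b : ℝ) * ((∏ i, H i : ℕ) : ℝ) = N := by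
    rw [hN]
    push_cast
    rfl
  rw [hbP] at h2
  have h3 : (X : ℝ) ^ (1 + 4 * τ) ≤ (N : ℝ) ^ (κ' * (1 + 4 * τ)) := by
    rw [Real.rpow_mul hNp.le]
    exact Real.rpow_le_rpow (by positivity) hXle (by positivity)
  have h3' : ((∏ i, H i : ℕ) : ℝ) ^ τ ≤ (N : ℝ) ^ τ :=
    Real.rpow_le_rpow (by positivity) (by exact_mod_cast hPN) hτ0.le
  have h4 : C * (X : ℝ) ^ (1 + 4 * τ) * ((∏ i, H i : ℕ) : ℝ) ^ τ ≤ C * (N : ℝ) ^ e := by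
    calc C * (X : ℝ) ^ (1 + 4 * τ) * ((∏ i, H i : ℕ) : ℝ) ^ τ ≤
          C * (N : ℝ) ^ (κ' * (1 + 4 * τ)) * (N : ℝ) ^ τ :=
          mul_le_mul (mul_le_mul_of_nonneg_left h3 hC.le) h3' (by positivity) (by positivity)
      _ = C * (N : ℝ) ^ (τ + κ' * (1 + 4 * τ)) := by
          rw [Real.rpow_add hNp τ]
          ring
      _ ≤ C * (N : ℝ) ^ e :=
          mul_le_mul_of_nonneg_left (Real.rpow_le_rpow_of_exponent_le hN' he1) hC.le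
  have h5 : 80 * c₁ * (C * (N : ℝ) ^ e) ≤ η / 2 * N := by
    have h6 := hN₀ N hle
    rw [div_le_iff₀ (by positivity)] at h6
    have h7 : (N : ℝ) = (N : ℝ) ^ (1 - e) * (N : ℝ) ^ e := by
      rw [← Real.rpow_add hNp]
      simp
    have h8 : (0 : ℝ) ≤ (N : ℝ) ^ e := by positivity
    calc 80 * c₁ * (C * (N : ℝ) ^ e) = (80 * c₁ * C) * (N : ℝ) ^ e := by ring
      _ ≤ ((N : ℝ) ^ (1 - e) * (η / 2)) * (N : ℝ) ^ e :=
          mul_le_mul_of_nonneg_right h6 h8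
      _ = η / 2 * ((N : ℝ) ^ (1 - e) * (N : ℝ) ^ e) := by ring
      _ = η / 2 * N := by rw [← h7]
  have h6 : 80 * c₁ * (C * (X : ℝ) ^ (1 + 4 * τ) * ((∏ i, H i : ℕ) : ℝ) ^ τ) ≤
      80 * c₁ * (C * (N : ℝ) ^ e) := mul_le_mul_of_nonneg_left h4 (by positivity)
  have h7 : B * c₁ * Ψ * (N : ℝ) = η / 2 * N := by rw [hBc]
  calc ((Bad ξ ψ θ b H ((N : ℝ) ^ κ) c₁).ncard : ℝ) ≤
        B * c₁ * Ψ * (N : ℝ) +
          80 * c₁ * (C * (X : ℝ) ^ (1 + 4 * τ) * ((∏ i, H i : ℕ) : ℝ) ^ τ) :=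
        h1.trans (hcard.trans h2)
    _ ≤ η / 2 * N + η / 2 * N := by
        rw [h7]
        exact add_le_add le_rfl (h6.trans h5)
    _ = η * N := by ring

end Pool.Agent.V8H86.GL
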